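import Mathlib
import Pool.Agent.H.MP_011385_al.A

namespace Pool.Agent.Results.MP_011385_al.Yes

def rels (n : ℕ) : Set (FreeGroup (Fin 2)) :=
  {FreeGroup.of 0 ^ 2 ^ (n - 1), FreeGroup.of 1 ^ 2,
    FreeGroup.of 1 * FreeGroup.of 0 * (FreeGroup.of 1)⁻¹ * (FreeGroup.of 0 ^ (1 + 2 ^ (n - 2)))⁻¹}

def RSequenceable (G : Type) [Group G] : Prop :=
  ∃ (l : ℕ) (g : ℕ → G), (∀ i < l, ∀ j < l, g i = g j → i = j) ∧
    (∀ x : G, x ≠ 1 ↔ ∃ i < l, g i = x) ∧
    ∀ i < l, ∀ j < l, (g i)⁻¹ * g ((i + 1) % l) = (g j)⁻¹ * g ((j + 1) % l) → i = j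

open Pool.Agent.H.MP_011385_al

section
variable {G : Type} [Group G] {a b : G} {k : ℕ} (ha : a ^ (8 * k) = 1) (hb : b * b = 1)
  (hc : b * a * b⁻¹ = a ^ (1 + 4 * k))

def el (a b : G) (k s c : ℕ) : G := if c < 8 * k then a ^ c else a ^ (c - s) * b

include ha in
theorem dv {x y : ℕ} (h : Dv k x y) : a ^ x = a ^ y := by
  have h2 : a ^ (16 * k) = 1 := by rw [show 16 * k = 8 * k * 2 by ring, pow_mul, ha, one_pow]
  have h3 : a ^ (24 * k) = 1 := by rw [show 24 * k = 8 * k * 3 by ring, pow_mul, ha, one_pow]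
  rcases h with h | h | h | h | h
  · rw [h]
  · rw [h, pow_add, ha, mul_one]
  · rw [h, pow_add, h2, mul_one]
  · rw [h, pow_add, h3, mul_one]
  · rw [← h, pow_add, ha, mul_one]

include ha hc in
theorem sw (d : ℕ) : b * a ^ d = a ^ (d + 4 * k * (d % 2)) * b := by
  have h1 : b * a ^ d * b⁻¹ = a ^ ((1 + 4 * k) * d) := by rw [pow_mul, ← hc, conj_pow]
  have h2 : (1 + 4 * k) * d = d + 4 * k * (d % 2) + 8 * k * (d / 2) := by
    conv_lhs => rw [← Nat.div_add_mod d 2]
    conv_rhs => arg 1; arg 1; rw [← Nat.div_add_mod d 2]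
    ring
  rw [h2, pow_add, pow_mul a (8 * k), ha, one_pow, mul_one] at h1
  rw [← h1]; simp

include ha hb hc in
theorem st {x d y : ℕ} (h : St k x d y) : el a b k 0 x * el a b k (2 * k) d = el a b k 0 y := by
  unfold el
  rcases h with ⟨h1, h2, h3, h⟩ | ⟨h1, h2, h3, h⟩ | ⟨h1, h2, h3, h⟩ | ⟨h1, h2, h3, h⟩ <;>
    simp only [h1, h2, h3, if_true, if_false, Nat.sub_zero]
  · rw [← pow_add, dv ha h]
  · rw [← mul_assoc, ← pow_add, dv ha h]
  · rw [mul_assoc, sw ha hc, ← mul_assoc, ← pow_add]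
    rcases h with ⟨h4, h⟩ | ⟨h4, h⟩ <;> rw [h4, ← dv ha h] <;> congr 2 <;> ring
  · rw [mul_assoc, ← mul_assoc b, sw ha hc, mul_assoc, hb, mul_one, ← pow_add]
    rcases h with ⟨h4, h⟩ | ⟨h4, h⟩ <;> rw [h4, ← dv ha h] <;> congr 1 <;> ring

end

theorem result (n : ℕ) (hn : 4 ≤ n) : RSequenceable (PresentedGroup (rels n)) := by
  obtain ⟨k, hk, h1, h2⟩ : ∃ k, 0 < k ∧ 2 ^ (n - 1) = 8 * k ∧ 2 ^ (n - 2) = 4 * k :=
    ⟨2 ^ (n - 4), by positivity, by rw [show n - 1 = 3 + (n - 4) by omega, pow_add]; rfl,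
      by rw [show n - 2 = 2 + (n - 4) by omega, pow_add]; rfl⟩
  set a : PresentedGroup (rels n) := PresentedGroup.of 0 with had
  set b : PresentedGroup (rels n) := PresentedGroup.of 1 with hbd
  have R : ∀ r ∈ rels n, PresentedGroup.mk (rels n) r = 1 := fun r hr =>
    PresentedGroup.one_of_mem hr
  have ha : a ^ (8 * k) = 1 := by
    have := R _ (Or.inl rfl); rwa [map_pow, h1] at this
  have hb : b * b = 1 := by
    have := R _ (Or.inr (Or.inl rfl)); rwa [map_pow, pow_two] at this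
  have hc : b * a * b⁻¹ = a ^ (1 + 4 * k) := by
    have := R _ (Or.inr (Or.inr rfl))
    rwa [map_mul, map_mul, map_mul, map_inv, map_inv, map_pow, h2, mul_inv_eq_one] at this
  have h8 : (8 * k : ZMod (8 * k)) = 0 := by exact_mod_cast ZMod.natCast_self (8 * k)
  have hu : (1 + 4 * k : ZMod (8 * k)) * (1 + 4 * k) = 1 := by linear_combination (1 + 2 * k) * h8
  let A : Equiv.Perm (ZMod (8 * k)) := Equiv.addRight 1
  let B : Equiv.Perm (ZMod (8 * k)) := (Units.mkOfMulEqOne _ _ hu).mulLeft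
  have hA : ∀ (m : ℕ) x, (A ^ m) x = x + m := fun m x => by simp [A]
  have hB : ∀ x, B x = (1 + 4 * k) * x := fun x => rfl
  have hBB : B * B = 1 := by ext x; simp only [Equiv.Perm.mul_apply, hB, ← mul_assoc, hu]; simp
  let φ : PresentedGroup (rels n) →* Equiv.Perm (ZMod (8 * k)) :=
    PresentedGroup.toGroup (f := ![A, B]) (by
      rintro r (rfl | rfl | rfl)
      · ext x; simp [hA, h1]
      · simp [pow_two, hBB]
      · simp only [map_mul, map_inv, map_pow, FreeGroup.lift_apply_of, mul_inv_eq_one, h2]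
        rw [show (![A, B] 1) = B from rfl, show (![A, B] 0) = A from rfl,
          ← eq_inv_of_mul_eq_one_left hBB]
        ext x
        rw [hA, Equiv.Perm.mul_apply, Equiv.Perm.mul_apply, hB, hB, ← pow_one A, hA]
        push_cast
        linear_combination x * hu)
  have φa : φ a = A := PresentedGroup.toGroup.of _
  have φb : φ b = B := PresentedGroup.toGroup.of _
  have pa : ∀ i j : ℕ, (A ^ i) 0 = (A ^ j) 0 → i < j + 8 * k → j < i + 8 * k → i = j :=
    fun i j h h3 h4 => by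
      rw [hA, hA, zero_add, zero_add, ZMod.natCast_eq_natCast_iff] at h
      exact h.eq_of_abs_lt (by rw [abs_lt]; omega)
  have nb : ∀ i j : ℕ, a ^ i ≠ a ^ j * b := fun i j h => by
    have h3 := congrArg φ h
    rw [map_mul, map_pow, map_pow, φa, φb] at h3
    have h4 := congrArg (fun f => f 0) h3
    have h5 := congrArg (fun f => f 1) h3
    simp only [Equiv.Perm.mul_apply, hA, hB] at h4 h5
    have h6 : ((4 * k : ℕ) : ZMod (8 * k)) = 0 := by push_cast; linear_combination h4 - h5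
    rw [ZMod.natCast_eq_zero_iff] at h6
    have := Nat.le_of_dvd (by omega) h6
    omega
  have inj : ∀ s ≤ 8 * k, ∀ x < 16 * k, ∀ y < 16 * k, el a b k s x = el a b k s y → x = y := by
    intro s hs x hx y hy h
    have key : ∀ i j : ℕ, a ^ i = a ^ j → (A ^ i) 0 = (A ^ j) 0 := fun i j h => by
      rw [← φa, ← map_pow, ← map_pow, h]
    unfold el at h
    split_ifs at h
    · exact pa _ _ (key _ _ h) (by omega) (by omega)
    · exact absurd h (nb _ _)
    · exact absurd h.symm (nb _ _)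
    · have := pa _ _ (key _ _ (mul_right_cancel h)) (by omega) (by omega)
      omega
  have all : ∀ x : PresentedGroup (rels n), ∃ i : ℕ, x = a ^ i ∨ x = a ^ i * b := by
    have hm : ∀ x y : PresentedGroup (rels n), (∃ i : ℕ, x = a ^ i ∨ x = a ^ i * b) →
        (∃ i : ℕ, y = a ^ i ∨ y = a ^ i * b) → ∃ i : ℕ, x * y = a ^ i ∨ x * y = a ^ i * b := by
      rintro x y ⟨i, rfl | rfl⟩ ⟨j, rfl | rfl⟩
      · exact ⟨_, Or.inl (pow_add _ _ _).symm⟩
      · exact ⟨_, Or.inr (by rw [← mul_assoc, ← pow_add])⟩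
      · exact ⟨_, Or.inr (by rw [mul_assoc, sw ha hc, ← mul_assoc, ← pow_add])⟩
      · exact ⟨_, Or.inl (by rw [mul_assoc, ← mul_assoc b, sw ha hc, mul_assoc, hb, mul_one, ← pow_add])⟩
    intro x
    obtain ⟨w, rfl⟩ := PresentedGroup.mk_surjective _ x
    induction w using FreeGroup.induction_on with
    | C1 => exact ⟨0, Or.inl (by simp)⟩
    | of i =>
      fin_cases i
      · exact ⟨1, Or.inl (pow_one a).symm⟩
      · exact ⟨0, Or.inr (by rw [pow_zero, one_mul]; rfl)⟩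
    | inv_of i _ =>
      rw [map_inv]
      fin_cases i
      · refine ⟨8 * k - 1, Or.inl (inv_eq_of_mul_eq_one_right ?_)⟩
        show a * _ = 1
        rw [← pow_succ', show 8 * k - 1 + 1 = 8 * k by omega, ha]
      · exact ⟨0, Or.inr (by rw [pow_zero, one_mul]; exact inv_eq_of_mul_eq_one_right hb)⟩
    | mul x y hx hy => rw [map_mul]; exact hm _ _ hx hy
  have sur : ∀ c < 16 * k, ∃ p < 16 * k, Z k p = c := fun c hc => by
    obtain ⟨p, hp⟩ := (Finite.injective_iff_surjective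
      (f := fun p : Fin (16 * k) => (⟨Z k p, Z_lt p.2⟩ : Fin (16 * k)))).1
      (fun p q h => Fin.ext (Z_inj p.2 q.2 (congrArg Fin.val h))) ⟨c, hc⟩
    exact ⟨p, p.2, congrArg Fin.val hp⟩
  have zl := zl hk
  have eb : el a b k 0 (8 * k) = b := by simp [el, ha]
  refine ⟨16 * k - 1, fun p => b * el a b k 0 (Z k p), fun i hi j hj h => ?_, fun x => ⟨fun hx => ?_, ?_⟩,
    fun i hi j hj h => ?_⟩
  · exact Z_inj (by omega) (by omega) (inj 0 (by omega) _ (Z_lt (by omega)) _ (Z_lt (by omega)) (mul_left_cancel h))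
  · obtain ⟨c, hc, h3⟩ : ∃ c < 16 * k, el a b k 0 c = b * x := by
      have hm : ∀ i, a ^ (i % (8 * k)) = a ^ i := fun i => (pow_eq_pow_mod i ha).symm
      obtain ⟨i, h | h⟩ := all (b * x)
      all_goals have := Nat.mod_lt i (show 0 < 8 * k by omega)
      · exact ⟨i % (8 * k), by omega, by rw [el, if_pos this, hm, h]⟩
      · exact ⟨i % (8 * k) + 8 * k, by omega, by
          rw [el, if_neg (by omega), Nat.sub_zero, pow_add, ha, mul_one, hm, h]⟩
    obtain ⟨p, hp, rfl⟩ := sur c hc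
    refine ⟨p, ?_, by simp only [h3, ← mul_assoc, hb, one_mul]⟩
    by_contra h4
    rw [show p = 16 * k - 1 by omega, zl, eb] at h3
    exact hx (by simpa using h3.symm)
  · rintro ⟨p, hp, rfl⟩ h
    have h3 : el a b k 0 (Z k p) = el a b k 0 (Z k (16 * k - 1)) := by
      rw [zl, eb]; exact mul_left_cancel (h.trans hb.symm)
    have := Z_inj (by omega) (by omega) (inj 0 (by omega) _ (Z_lt (by omega)) _ (Z_lt (by omega)) h3)
    omega
  · simp only [← st ha hb hc (step hi), ← st ha hb hc (step hj), mul_inv_rev, mul_assoc,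
      inv_mul_cancel_left] at h
    exact D_inj hi hj (inj _ (by omega) _ (D_lt hi) _ (D_lt hj) h)

end Pool.Agent.Results.MP_011385_al.Yes
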